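import Pool.Agent.LPK.Stmts

/-!
# Row HAD of the table lpk (class block, finite form)
-/

namespace Pool.Agent.LPK.H97

open Pool.Agent.LPK

/-- the sign character of `ZMod 2` -/
noncomputable def s2 (a : ZMod 2) : ℝ := if a = 0 then 1 else -1

theorem s2_zero : s2 0 = 1 := if_pos rfl

theorem s2_one : s2 1 = -1 := if_neg (by decide)

theorem zcases (a : ZMod 2) : a = 0 ∨ a = 1 := by
  revert a
  decide

theorem s2_add (a b : ZMod 2) : s2 (a + b) = s2 a * s2 b := by
  rcases zcases a with h | h <;> rcases zcases b with h' | h' <;> subst h <;> subst h'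
  · rw [add_zero, s2_zero, mul_one]
  · rw [zero_add, s2_zero, one_mul]
  · rw [add_zero, s2_zero, mul_one]
  · have : (1 + 1 : ZMod 2) = 0 := by decide
    rw [this, s2_zero, s2_one]; norm_num

theorem sum_chi {n : ℕ} (u : Fin n → ZMod 2) (hu : u ≠ 0) :
    ∑ c : Fin n → ZMod 2, s2 (∑ i, c i * u i) = 0 := by
  obtain ⟨i, hi⟩ := Function.ne_iff.1 hu
  have hi1 : u i = 1 := by
    rcases zcases (u i) with h | h
    · exact absurd h hi
    · exact h
  have h1 : ∀ c : Fin n → ZMod 2,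
      s2 (∑ j, (c + (Pi.single i 1 : Fin n → ZMod 2)) j * u j) = - s2 (∑ j, c j * u j) := by
    intro c
    have e : ∑ j, (c + (Pi.single i 1 : Fin n → ZMod 2)) j * u j = ∑ j, c j * u j + 1 := by
      simp only [Pi.add_apply, add_mul, Finset.sum_add_distrib]
      congr 1
      rw [Finset.sum_eq_single i]
      · rw [Pi.single_eq_same, hi1, one_mul]
      · intro j _ hj
        rw [Pi.single_eq_of_ne hj, zero_mul]
      · intro h; exact absurd (Finset.mem_univ i) h
    rw [e, s2_add, s2_one]; ring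
  have h2 := Equiv.sum_comp (Equiv.addRight (Pi.single i 1 : Fin n → ZMod 2))
    (fun c : Fin n → ZMod 2 => s2 (∑ j, c j * u j))
  simp only [Equiv.coe_addRight] at h2
  rw [Finset.sum_congr rfl (fun c _ => h1 c), Finset.sum_neg_distrib] at h2
  linarith

theorem orth {n : ℕ} (d e : Fin n → ZMod 2) :
    ∑ c : Fin n → ZMod 2, s2 (∑ i, c i * d i) * s2 (∑ i, c i * e i) =
      if d = e then (2 : ℝ) ^ n else 0 := by
  have h1 : ∀ c : Fin n → ZMod 2, s2 (∑ i, c i * d i) * s2 (∑ i, c i * e i) =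
      s2 (∑ i, c i * (d + e) i) := by
    intro c
    rw [← s2_add, ← Finset.sum_add_distrib]
    congr 1
    exact Finset.sum_congr rfl (fun i _ => by rw [Pi.add_apply, mul_add])
  rw [Finset.sum_congr rfl (fun c _ => h1 c)]
  by_cases h : d = e
  · rw [if_pos h, h]
    have h2 : e + e = 0 := by
      funext i
      rw [Pi.add_apply, Pi.zero_apply]
      rcases zcases (e i) with h' | h' <;> rw [h'] <;> decide
    rw [h2]
    simp only [Pi.zero_apply, mul_zero, Finset.sum_const_zero, s2_zero]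
    rw [Finset.sum_const, Finset.card_univ, Fintype.card_fun, ZMod.card, Fintype.card_fin]
    simp
  · rw [if_neg h]
    refine sum_chi _ ?_
    intro h0
    apply h
    funext i
    have h2 := congrFun h0 i
    rw [Pi.add_apply, Pi.zero_apply] at h2
    rcases zcases (d i) with h' | h' <;> rcases zcases (e i) with h'' | h'' <;>
      rw [h', h''] at h2 ⊢
    · exact absurd h2 (by decide)
    · exact absurd h2 (by decide)

theorem had : HadStmt := by
  intro n hn α β S T χ hχ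
  have hχ' : ∀ c d, χ c d = s2 (∑ i, c i * d i) := fun c d => hχ c d
  obtain ⟨r, hr⟩ : ∃ r, r = rr n := ⟨_, rfl⟩
  rw [← hr]
  have hN : r ^ 2 * (2 : ℝ) ^ n = 1 := by
    obtain ⟨m, rfl⟩ := hn
    rw [hr]
    unfold rr
    have e : (m + m) / 2 = m := by omega
    rw [e, div_pow, one_pow, ← pow_mul, mul_comm m 2, two_mul]
    field_simp
  have hcard : ∑ _c : Fin n → ZMod 2, (1 : ℝ) = 2 ^ n := by
    rw [Finset.sum_const, Finset.card_univ, Fintype.card_fun, ZMod.card, Fintype.card_fin]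
    simp
  have hχ0 : ∀ d, χ 0 d = 1 := by
    intro d
    rw [hχ']
    simp [s2_zero]
  have hχ0' : ∀ c, χ c 0 = 1 := by
    intro c
    rw [hχ']
    simp [s2_zero]
  have ho : ∀ d e, ∑ c, χ c d * χ c e = if d = e then (2 : ℝ) ^ n else 0 := by
    intro d e
    simp only [hχ']
    exact orth d e
  have ho1 : ∀ d, ∑ c, χ c d = if d = 0 then (2 : ℝ) ^ n else 0 := by
    intro d
    have := ho d 0
    simp only [hχ0', mul_one] at this
    exact this
  -- the summands
  obtain ⟨δ, hδ⟩ : ∃ δ : (Fin n → ZMod 2) → ℝ, δ = fun c => if c = 0 then 1 else 0 := ⟨_, rfl⟩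
  obtain ⟨U, hU⟩ : ∃ U : (Fin n → ZMod 2) → ℝ, U = fun c => ∑ d, χ c d * T d := ⟨_, rfl⟩
  have hδs : ∀ f : (Fin n → ZMod 2) → ℝ, ∑ c, δ c * f c = f 0 := by
    intro f
    rw [hδ]
    simp
  have s1 : ∑ c, δ c * δ c = 1 := by
    rw [hδs, hδ]; simp
  have s2' : ∑ c, δ c * U c = ∑ d, T d := by
    rw [hδs, hU]
    simp only [hχ0, one_mul]
  have s3 : ∑ c, U c = 2 ^ n * T 0 := by
    rw [hU]
    rw [Finset.sum_comm]
    simp only [← Finset.sum_mul, ho1, ite_mul, zero_mul]
    rw [Finset.sum_ite_eq' Finset.univ (0 : Fin n → ZMod 2), if_pos (Finset.mem_univ _)]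
  have s4 : ∑ c, U c * U c = 2 ^ n * ∑ d, T d ^ 2 := by
    rw [hU]
    have e1 : ∀ c, (∑ d, χ c d * T d) * (∑ d, χ c d * T d) =
        ∑ d, ∑ e, (χ c d * χ c e) * (T d * T e) := by
      intro c
      rw [Finset.sum_mul_sum]
      exact Finset.sum_congr rfl (fun d _ => Finset.sum_congr rfl (fun e _ => by ring))
    simp only [e1]
    rw [Finset.sum_comm, Finset.mul_sum]
    refine Finset.sum_congr rfl (fun d _ => ?_)
    rw [Finset.sum_comm]
    simp only [← Finset.sum_mul, ho, ite_mul, zero_mul]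
    rw [Finset.sum_ite_eq Finset.univ d, if_pos (Finset.mem_univ _)]
    ring
  have s5 : ∑ c, S c * U c = ∑ c, ∑ d, χ c d * (S c * T d) := by
    rw [hU]
    refine Finset.sum_congr rfl (fun c _ => ?_)
    rw [Finset.mul_sum]
    exact Finset.sum_congr rfl (fun d _ => by ring)
  have s6 : ∑ c, δ c * S c = S 0 := hδs S
  have s7 : ∑ c, δ c = 1 := by
    have := hδs (fun _ => 1)
    simpa using this
  have key : ∑ c, (α * δ c + β * r + S c + r * U c) ^ 2 =
      α ^ 2 + 2 * α * β * r + β ^ 2 + 2 * α * S 0 + 2 * β * r * ∑ c, S c +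
    2 * α * r * ∑ d, T d + 2 * β * T 0 + ∑ c, S c ^ 2 + ∑ d, T d ^ 2 +
    2 * r * ∑ c, ∑ d, χ c d * (S c * T d) := by
    have e1 : ∀ c, (α * δ c + β * r + S c + r * U c) ^ 2 =
        α ^ 2 * (δ c * δ c) + (β ^ 2 * r ^ 2) * 1 + S c ^ 2 + r ^ 2 * (U c * U c) +
        (2 * α * β * r) * δ c + (2 * α) * (δ c * S c) + (2 * α * r) * (δ c * U c) +
        (2 * β * r) * S c + (2 * β * r ^ 2) * U c + (2 * r) * (S c * U c) := by
      intro c; ring
    simp only [e1, Finset.sum_add_distrib, ← Finset.mul_sum]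
    rw [s1, s2', s3, s4, s5, s6, s7, hcard]
    have h1 : β ^ 2 * r ^ 2 * 2 ^ n = β ^ 2 := by
      calc β ^ 2 * r ^ 2 * 2 ^ n = β ^ 2 * (r ^ 2 * 2 ^ n) := by ring
        _ = β ^ 2 := by rw [hN, mul_one]
    have h2 : r ^ 2 * (2 ^ n * ∑ d, T d ^ 2) = ∑ d, T d ^ 2 := by
      calc r ^ 2 * (2 ^ n * ∑ d, T d ^ 2) = (r ^ 2 * 2 ^ n) * ∑ d, T d ^ 2 := by ring
        _ = ∑ d, T d ^ 2 := by rw [hN, one_mul]
    have h3 : 2 * β * r ^ 2 * (2 ^ n * T 0) = 2 * β * T 0 := by
      calc 2 * β * r ^ 2 * (2 ^ n * T 0) = 2 * β * T 0 * (r ^ 2 * 2 ^ n) := by ring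
        _ = 2 * β * T 0 := by rw [hN, mul_one]
    rw [h1, h2, h3]
    ring
  rw [← key]
  exact Finset.sum_nonneg (fun c _ => sq_nonneg _)

end Pool.Agent.LPK.H97
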